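import Mathlib

set_option autoImplicit false

/-! Linear algebra for the ranks of the obstruction subgroup. -/

namespace Pool.Agent.L0h53.RK

open Module

theorem pair_le {d : ℕ} (U W : Submodule ℂ (Fin d → ℂ))
    (h : ∀ u ∈ U, ∀ c ∈ W, ∑ i, u i * c i = 0) : finrank ℂ U + finrank ℂ W ≤ d := by
  let T := dotProductEquiv ℂ (Fin d)
  have h1 : W.map T.toLinearMap ≤ U.dualAnnihilator := by
    rintro _ ⟨c, hc, rfl⟩
    rw [Submodule.mem_dualAnnihilator]
    intro u hu
    change dotProduct c u = 0
    rw [dotProduct_comm]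
    exact h u hu c hc
  have h2 : finrank ℂ (W.map T.toLinearMap) = finrank ℂ W := LinearEquiv.finrank_map_eq T W
  have h3 := Subspace.finrank_add_finrank_dualAnnihilator_eq U
  have h4 := Submodule.finrank_mono h1
  rw [finrank_fin_fun] at h3
  omega

/-- integral vectors which are linearly independent over the integers are linearly independent over
the complex numbers -/
theorem cast_li {k d : ℕ} (v : Fin k → Fin d → ℤ) (hv : LinearIndependent ℤ v) :
    LinearIndependent ℂ (fun n (i : Fin d) => ((v n i : ℤ) : ℂ)) := by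
  -- over the rational numbers
  have hQ : LinearIndependent ℚ (fun n (i : Fin d) => ((v n i : ℤ) : ℚ)) := by
    rw [← LinearIndependent.iff_fractionRing ℤ ℚ]
    let f : (Fin d → ℤ) →ₗ[ℤ] (Fin d → ℚ) :=
      { toFun := fun m i => (m i : ℚ)
        map_add' := fun m m' => by funext i; simp
        map_smul' := fun c m => by funext i; simp }
    have hf : LinearMap.ker f = ⊥ := by
      rw [LinearMap.ker_eq_bot']
      intro m hm
      funext i
      have := congrFun hm i
      have h2 : ((m i : ℤ) : ℚ) = 0 := this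
      exact_mod_cast h2
    exact hv.map' f hf
  rw [Fintype.linearIndependent_iff] at hQ ⊢
  intro g hg n
  rw [← Module.forall_dual_apply_eq_zero_iff ℚ (g n)]
  intro φ
  have h1 := hQ (fun n => φ (g n)) (by
    funext i
    have h2 := congrFun hg i
    rw [Finset.sum_apply] at h2 ⊢
    simp only [Pi.smul_apply, smul_eq_mul, Pi.zero_apply] at h2 ⊢
    have h3 := congrArg φ h2
    rw [map_sum, map_zero] at h3
    rw [← h3]
    refine Finset.sum_congr rfl fun n _ => ?_
    have h4 : g n * ((v n i : ℤ) : ℂ) = ((v n i : ℤ) : ℚ) • g n := by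
      rw [Algebra.smul_def]
      simp [mul_comm]
    rw [h4, map_smul, smul_eq_mul, mul_comm])
  exact h1 n

theorem rank_cast {d : ℕ} (Rm : AddSubgroup (Fin d → ℤ)) (U : Submodule ℂ (Fin d → ℂ))
    (h : ∀ m ∈ Rm, (fun i => ((m i : ℤ) : ℂ)) ∈ U) : finrank ℤ Rm ≤ finrank ℂ U := by
  obtain ⟨f, hf⟩ := exists_linearIndependent_of_le_finrank (R := ℤ) (M := Rm) le_rfl
  have h1 : LinearIndependent ℤ (fun n => ((f n : Rm) : Fin d → ℤ)) := by
    have hk : LinearMap.ker (Rm.subtype.toIntLinearMap) = ⊥ := by
      rw [LinearMap.ker_eq_bot]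
      exact Subtype.val_injective
    exact hf.map' _ hk
  have h2 := cast_li _ h1
  have h3 : LinearIndependent ℂ (fun n => (⟨fun i => (((f n : Rm) : Fin d → ℤ) i : ℂ),
      h _ (f n).2⟩ : U)) := by
    apply LinearIndependent.of_comp U.subtype
    exact h2
  have := h3.fintype_card_le_finrank
  rwa [Fintype.card_fin] at this

end Pool.Agent.L0h53.RK
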