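import Mathlib

set_option autoImplicit false

/-! Choice of the parameters. -/

namespace Pool.Agent.L0h53.RK

theorem arch (A1 A0 Δ : ℕ) (hΔ : 1 ≤ Δ) (κ' : ℝ) (h : (A1 : ℝ) / Δ < κ') :
    ∃ a : ℕ, 2 ≤ a ∧ ((A1 * a + A0 : ℕ) : ℝ) / ((Δ * a : ℕ) : ℝ) ≤ κ' := by
  have hΔR : (1 : ℝ) ≤ Δ := by exact_mod_cast hΔ
  have h0 : 0 < Δ * κ' - A1 := by
    rw [div_lt_iff₀ (by linarith)] at h
    linarith
  obtain ⟨k, hk⟩ := exists_nat_gt ((A0 : ℝ) / (Δ * κ' - A1))
  refine ⟨k + 2, by omega, ?_⟩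
  rw [div_lt_iff₀ h0] at hk
  rw [div_le_iff₀ (by positivity)]
  push_cast
  have hk0 : (0 : ℝ) ≤ k := Nat.cast_nonneg k
  nlinarith

theorem split {d l r : ℕ} (h : r * (d + l) < d * l) :
    ∃ u Δ : ℕ, 1 ≤ u ∧ 1 ≤ Δ ∧ d = r + u ∧ r * d + Δ = u * l ∧ 1 ≤ l ∧ d * l = r * (d + l) + Δ := by
  have hrd : r < d := by
    by_contra hc
    push Not at hc
    have h1 : d * (d + l) ≤ r * (d + l) := Nat.mul_le_mul_right _ hc
    have h2 : d * l ≤ d * (d + l) := Nat.mul_le_mul_left _ (by omega)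
    omega
  obtain ⟨u, hu⟩ : ∃ u, d = r + u := ⟨d - r, by omega⟩
  obtain ⟨Δ, hΔ⟩ : ∃ Δ, d * l = r * (d + l) + Δ := ⟨d * l - r * (d + l), by omega⟩
  have hl : 1 ≤ l := by
    rcases Nat.eq_zero_or_pos l with h0 | h0
    · subst h0
      simp at h
    · exact h0
  refine ⟨u, Δ, by omega, by omega, hu, ?_, hl, hΔ⟩
  have h1 : (r + u) * l = r * (d + l) + Δ := by rw [← hu]; exact hΔ
  have h2 : (r + u) * l = r * l + u * l := by ring
  have h3 : r * (d + l) = r * d + r * l := by ring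
  omega

theorem params_pure (d l r : ℕ) (h : r * (d + l) < d * l) (κ' : ℝ)
    (hκ : (d * l : ℝ) / (d * l - r * (d + l)) < κ') : ∃ a σ μ : ℕ, 1 ≤ a ∧
    (σ + μ + a) * r + 1 ≤ d * μ ∧ d * μ < l * σ ∧ ((σ + μ + a : ℕ) : ℝ) / a ≤ κ' := by
  obtain ⟨u, Δ, hu, hΔ, hd, hrel, hl, hdl⟩ := split h
  have hκ2 : ((d * l : ℕ) : ℝ) / Δ < κ' := by
    have : (Δ : ℝ) = d * l - r * (d + l) := by
      have : ((d * l : ℕ) : ℝ) = ((r * (d + l) + Δ : ℕ) : ℝ) := by rw [hdl]
      push_cast at this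
      linarith
    rw [this]
    push_cast
    exact hκ
  obtain ⟨a', ha', hr⟩ := arch (d * l) (2 * d ^ 2 + 1) Δ hΔ κ' hκ2
  refine ⟨Δ * a', r * d * a' + 2 * d * u, l * r * a' + 2 * r * d + 1,
    Nat.one_le_iff_ne_zero.mpr (by positivity), ?_, ?_, ?_⟩
  · have e : d * (l * r * a' + 2 * r * d + 1) =
        (r * d * a' + 2 * d * u + (l * r * a' + 2 * r * d + 1) + Δ * a') * r + u := by
      have e1 : r * a' * (r * d + Δ) = r * a' * (u * l) := by rw [hrel]
      zify at e1 hd ⊢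
      rw [hd] at e1 ⊢
      linear_combination -e1
    omega
  · have e1 : a' * r * d * (r * d + Δ) = a' * r * d * (u * l) := by rw [hrel]
    have e : l * (r * d * a' + 2 * d * u) + d =
        d * (l * r * a' + 2 * r * d + 1) + 2 * d * Δ := by
      zify at hrel ⊢
      linear_combination -(2 * (d : ℤ)) * hrel
    have hd1 : 1 ≤ d := by omega
    have : d * 1 ≤ d * Δ := Nat.mul_le_mul_left _ hΔ
    nlinarith
  · refine le_trans (le_of_eq ?_) hr
    congr 2
    zify at hrel hd hdl ⊢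
    rw [hd] at hrel hdl ⊢
    linear_combination -(a' : ℤ) * hdl

theorem params_strong (d l r : ℕ) (h : r * (d + l) < d * l) (κ' : ℝ)
    (hκ : (2 * (d * l) : ℝ) / (d * l - r * (d + l)) < κ') : ∃ a σ μ : ℕ, 2 ≤ a ∧ 1 ≤ σ ∧
    (σ + μ + a) * (r + d) + 1 ≤ d * (σ + μ) + d * μ ∧ d * μ + d < l * σ + d * a ∧
    ((σ + μ + a : ℕ) : ℝ) / a ≤ κ' := by
  obtain ⟨u, Δ, hu, hΔ, hd, hrel, hl, hdl⟩ := split h
  have hκ2 : ((2 * (d * l) : ℕ) : ℝ) / Δ < κ' := by
    have : (Δ : ℝ) = d * l - r * (d + l) := by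
      have : ((d * l : ℕ) : ℝ) = ((r * (d + l) + Δ : ℕ) : ℝ) := by rw [hdl]
      push_cast at this
      linarith
    rw [this]
    push_cast
    exact hκ
  have hd1 : 1 ≤ d := by omega
  obtain ⟨a', ha', hr⟩ := arch (2 * (d * l)) (d ^ 2 * (d + 2) + 1) Δ hΔ κ' hκ2
  obtain ⟨v, hv⟩ : ∃ v, v = d * l + l * r := ⟨_, rfl⟩
  -- `μ = (l (r + d) - r d) a' + r d (d + 2) + 1`
  have hle : r * d ≤ l * (r + d) := by
    have h1 : r ≤ l := by
      by_contra hc
      push Not at hc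
      have h2 : l * (d + l) ≤ r * (d + l) := Nat.mul_le_mul_right _ hc.le
      have h3 : l * (d + l) = l * d + l * l := by ring
      have h4 : d * l = l * d := by ring
      omega
    calc r * d ≤ l * d := Nat.mul_le_mul_right _ h1
      _ ≤ l * (r + d) := Nat.mul_le_mul_left _ (by omega)
  obtain ⟨w, hw⟩ : ∃ w, l * (r + d) = r * d + w := ⟨l * (r + d) - r * d, by omega⟩
  refine ⟨Δ * a', 2 * r * d * a' + d * u * (d + 2), w * a' + r * d * (d + 2) + 1,
    ?_, ?_, ?_, ?_, ?_⟩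
  · calc 2 ≤ a' := ha'
      _ = 1 * a' := (one_mul _).symm
      _ ≤ Δ * a' := Nat.mul_le_mul_right _ hΔ
  · have : 0 < d * u * (d + 2) := by positivity
    omega
  · have e : d * (2 * r * d * a' + d * u * (d + 2) + (w * a' + r * d * (d + 2) + 1)) +
        d * (w * a' + r * d * (d + 2) + 1) =
        (2 * r * d * a' + d * u * (d + 2) + (w * a' + r * d * (d + 2) + 1) + Δ * a') * (r + d) + u := by
      have hΔ' : (Δ : ℤ) = u * l - r * d := by zify at hrel; linarith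
      have hw' : (w : ℤ) = l * (r + d) - r * d := by zify at hw; linarith
      have hd' : (d : ℤ) = r + u := by exact_mod_cast hd
      zify
      rw [hΔ', hw', hd']
      ring
    omega
  · have e : l * (2 * r * d * a' + d * u * (d + 2)) + d * (Δ * a') =
        d * (w * a' + r * d * (d + 2)) + d * (d + 2) * Δ := by
      have hΔ' : (Δ : ℤ) = u * l - r * d := by zify at hrel; linarith
      have hw' : (w : ℤ) = l * (r + d) - r * d := by zify at hw; linarith
      have hd' : (d : ℤ) = r + u := by exact_mod_cast hd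
      zify
      rw [hΔ', hw', hd']
      ring
    have h1 : d * (d + 2) * 1 ≤ d * (d + 2) * Δ := Nat.mul_le_mul_left _ hΔ
    have h2 : 3 * d ≤ d * (d + 2) := by nlinarith
    have h3 : d * (w * a' + r * d * (d + 2) + 1) = d * (w * a' + r * d * (d + 2)) + d := by ring
    omega
  · refine le_trans (le_of_eq ?_) hr
    congr 2
    have hΔ' : (Δ : ℤ) = u * l - r * d := by zify at hrel; linarith
    have hw' : (w : ℤ) = l * (r + d) - r * d := by zify at hw; linarith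
    have hd' : (d : ℤ) = r + u := by exact_mod_cast hd
    zify
    rw [hΔ', hw', hd']
    ring

end Pool.Agent.L0h53.RK
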