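import Mathlib

set_option autoImplicit false

/-! A matrix of rank at most `r` with bounded entries is a product of matrices with bounded
entries. -/

namespace Pool.Agent.L0h53.RK

open Module

/-- In a spanning finite family there is a basis with respect to which the members of the family have
coordinates of absolute value at most one. -/
theorem auerbach {V : Type*} [AddCommGroup V] [Module ℂ V] [FiniteDimensional ℂ V] {d : ℕ}
    (v : Fin d → V) (hv : Submodule.span ℂ (Set.range v) = ⊤) :
    ∃ (e : Fin (finrank ℂ V) → Fin d) (c : Fin (finrank ℂ V) → Fin d → ℂ),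
      (∀ ρ i, ‖c ρ i‖ ≤ 1) ∧ ∀ i, v i = ∑ ρ, c ρ i • v (e ρ) := by
  classical
  let b : Basis (Fin (finrank ℂ V)) ℂ V := Module.finBasis ℂ V
  -- a choice of vectors which is a basis
  obtain ⟨e0, he0⟩ : ∃ e0 : Fin (finrank ℂ V) → Fin d, b.det (v ∘ e0) ≠ 0 := by
    obtain ⟨s, hs1, hs2, hli⟩ := exists_linearIndependent ℂ (Set.range v)
    have hfin : Finite s := hli.finite
    have hfint : Fintype s := Fintype.ofFinite s
    have hcard : Fintype.card s = finrank ℂ V := by
      have h1 : finrank ℂ (Submodule.span ℂ s) = Fintype.card s := by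
        have := finrank_span_eq_card hli
        rwa [Subtype.range_coe] at this
      rw [← h1, hs2, hv, finrank_top]
    let e : Fin (finrank ℂ V) ≃ s := (finCongr hcard.symm).trans (Fintype.equivFin s).symm
    have hmem : ∀ i : Fin (finrank ℂ V), ∃ n, v n = ((e i : s) : V) := fun i => hs1 (e i).2
    choose a ha using hmem
    refine ⟨a, ?_⟩
    have h1 : v ∘ a = fun i => ((e i : s) : V) := by
      funext i
      exact ha i
    have h2 : LinearIndependent ℂ (v ∘ a) := by
      rw [h1]
      exact hli.comp e e.injective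
    have h3 : Submodule.span ℂ (Set.range (v ∘ a)) = ⊤ := by
      have h4 : Set.range (v ∘ a) = s := by
        rw [h1]
        ext x
        constructor
        · rintro ⟨i, rfl⟩
          exact (e i).2
        · intro hx
          exact ⟨e.symm ⟨x, hx⟩, by simp⟩
      rw [h4, hs2, hv]
    have h5 := (Module.Basis.is_basis_iff_det b).mp ⟨h2, h3⟩
    exact h5.ne_zero
  -- the maximal determinant
  obtain ⟨e, -, he⟩ := Finset.exists_max_image (Finset.univ : Finset (Fin (finrank ℂ V) → Fin d))
    (fun e => ‖b.det (v ∘ e)‖) ⟨e0, Finset.mem_univ _⟩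
  have hne : b.det (v ∘ e) ≠ 0 := by
    have h1 := he e0 (Finset.mem_univ _)
    have h2 : 0 < ‖b.det (v ∘ e0)‖ := norm_pos_iff.mpr he0
    exact norm_pos_iff.mp (lt_of_lt_of_le h2 h1)
  have hb := (Module.Basis.is_basis_iff_det b).mpr (isUnit_iff_ne_zero.mpr hne)
  let b' : Basis (Fin (finrank ℂ V)) ℂ V := Basis.mk hb.1 hb.2.ge
  have hb' : ∀ ρ, b' ρ = v (e ρ) := fun ρ => by simp [b']
  refine ⟨e, fun ρ i => b'.repr (v i) ρ, ?_, ?_⟩
  · intro ρ i
    have hvi : v i = ∑ σ, b'.repr (v i) σ • v (e σ) := by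
      have := (b'.sum_repr (v i)).symm
      simpa [hb'] using this
    have h1 : v ∘ (Function.update e ρ i) = Function.update (v ∘ e) ρ (v i) := by
      funext σ
      by_cases h : σ = ρ
      · subst h; simp
      · simp [h]
    have h2 : b.det (Function.update (v ∘ e) ρ (v i)) = b'.repr (v i) ρ * b.det (v ∘ e) := by
      conv_lhs => rw [hvi]
      have h3 := MultilinearMap.map_update_sum (b.det : MultilinearMap ℂ (fun _ : Fin (finrank ℂ V) => V) ℂ)
        Finset.univ ρ (fun σ => b'.repr (v i) σ • v (e σ)) (v ∘ e)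
      have h4 : b.det (Function.update (v ∘ e) ρ (∑ σ, b'.repr (v i) σ • v (e σ))) =
          ∑ σ, b.det (Function.update (v ∘ e) ρ (b'.repr (v i) σ • v (e σ))) := h3
      rw [h4, Finset.sum_eq_single ρ]
      · rw [AlternatingMap.map_update_smul, smul_eq_mul]
        congr 2
        funext σ
        by_cases h : σ = ρ
        · subst h; simp
        · simp [h]
      · intro σ _ hσ
        rw [AlternatingMap.map_update_smul]
        have h5 : v (e σ) = (v ∘ e) σ := rfl
        rw [h5, AlternatingMap.map_update_self _ _ (Ne.symm hσ), smul_zero]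
      · intro h
        exact absurd (Finset.mem_univ _) h
    have h6 := he (Function.update e ρ i) (Finset.mem_univ _)
    simp only [h1, h2, norm_mul] at h6
    have h7 : 0 < ‖b.det (v ∘ e)‖ := norm_pos_iff.mpr hne
    exact le_of_mul_le_mul_right (by linarith) h7
  · intro i
    have := (b'.sum_repr (v i)).symm
    simpa [hb'] using this

/-- **Bounded factorisation.** -/
theorem factor {d l : ℕ} (N : Matrix (Fin d) (Fin l) ℂ) (r : ℕ) (hr : N.rank ≤ r) (M : ℝ)
    (hM0 : 0 ≤ M) (hM : ∀ i j, ‖N i j‖ ≤ M) :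
    ∃ (x : Fin r → Fin d → ℂ) (y : Fin r → Fin l → ℂ), (∀ ρ i, ‖x ρ i‖ ≤ 1) ∧
      (∀ ρ j, ‖y ρ j‖ ≤ M) ∧ ∀ i j, N i j = ∑ ρ, x ρ i * y ρ j := by
  classical
  let V : Submodule ℂ (Fin l → ℂ) := Submodule.span ℂ (Set.range N.row)
  have hrank : finrank ℂ V = N.rank := (N.rank_eq_finrank_span_row).symm
  let v : Fin d → V := fun i => ⟨N.row i, Submodule.subset_span ⟨i, rfl⟩⟩
  have hv : Submodule.span ℂ (Set.range v) = ⊤ := by
    have := Submodule.span_span_coe_preimage (R := ℂ) (s := Set.range N.row)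
    rw [← this]
    congr 1
    ext x
    constructor
    · rintro ⟨i, rfl⟩
      exact ⟨i, rfl⟩
    · rintro ⟨i, hi⟩
      exact ⟨i, Subtype.ext hi⟩
  obtain ⟨e, c, hc, hvc⟩ := auerbach v hv
  have hk : finrank ℂ V ≤ r := by rw [hrank]; exact hr
  let x : Fin r → Fin d → ℂ := fun ρ i => if h : (ρ : ℕ) < finrank ℂ V then c ⟨ρ, h⟩ i else 0
  let y : Fin r → Fin l → ℂ := fun ρ j => if h : (ρ : ℕ) < finrank ℂ V then N (e ⟨ρ, h⟩) j else 0
  refine ⟨x, y, ?_, ?_, ?_⟩
  · intro ρ i
    by_cases h : (ρ : ℕ) < finrank ℂ V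
    · simp only [x, h, dif_pos]; exact hc _ _
    · simp [x, h]
  · intro ρ j
    by_cases h : (ρ : ℕ) < finrank ℂ V
    · simp only [y, h, dif_pos]; exact hM _ _
    · simp [y, h, hM0]
  · intro i j
    have h1 : N i j = ∑ ρ, c ρ i * N (e ρ) j := by
      have h2 := congrArg (fun w : V => (w : Fin l → ℂ) j) (hvc i)
      simp only [Submodule.coe_sum, Submodule.coe_smul, Finset.sum_apply, Pi.smul_apply,
        smul_eq_mul] at h2
      exact h2
    rw [h1]
    have hinj : Function.Injective (Fin.castLE hk) := Fin.castLE_injective hk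
    have h3 : ∑ ρ : Fin r, x ρ i * y ρ j =
        ∑ ρ ∈ Finset.univ.image (Fin.castLE hk), x ρ i * y ρ j := by
      symm
      apply Finset.sum_subset (Finset.subset_univ _)
      intro ρ _ hρ
      have h4 : ¬ (ρ : ℕ) < finrank ℂ V := by
        intro h
        apply hρ
        rw [Finset.mem_image]
        exact ⟨⟨ρ, h⟩, Finset.mem_univ _, by ext; rfl⟩
      simp [x, h4]
    rw [h3, Finset.sum_image (fun _ _ _ _ h => hinj h)]
    refine Finset.sum_congr rfl fun ρ _ => ?_
    have h5 : ((Fin.castLE hk ρ : Fin r) : ℕ) < finrank ℂ V := ρ.2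
    simp only [x, y, h5, dif_pos]
    rfl

end Pool.Agent.L0h53.RK
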