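import Mathlib
import Pool.Agent.L0h53.NP.ObsU
import Pool.Agent.L0h53.NP.Base
import Pool.Agent.L0h53.RK.Factor
import Pool.Agent.L0h53.RK.Params

set_option autoImplicit false

/-! Matrices of logarithms of algebraic numbers close to matrices of low rank: the obstruction
subgroup. -/

namespace Pool.Agent.L0h53.RK

open Finset Module Pool.Agent.H301R2.TR

/-- `a` has a denominator at most `H`, and its conjugates are at most `H`. -/
def Ht {K : Type} [Field K] [NumberField K] (H : ℝ) (a : K) : Prop :=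
  (∃ q : ℕ, 0 < q ∧ (q : ℝ) ≤ H ∧ IsIntegral ℤ ((q : K) * a)) ∧ ∀ τ : K →ₐ[ℚ] ℂ, ‖τ a‖ ≤ H

theorem intD_of {K : Type} [Field K] {q dd : ℕ} (h : q ∣ dd) {a : K}
    (ha : IsIntegral ℤ ((q : K) * a)) : IntD dd 1 a := by
  obtain ⟨c, rfl⟩ := h
  unfold IntD
  have : ((q * c : ℕ) : K) ^ 1 * a = (c : K) * ((q : K) * a) := by push_cast; ring
  rw [this]
  exact (isIntegral_natCast c).mul ha

theorem core_gen (w d l r D0 : ℕ) (γ : Fin w → Fin d → ℤ) (κ μ σ τ a : ℕ) (hd : 1 ≤ d) (hl : 1 ≤ l)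
    (hκ : μ + σ = κ) (hτ : τ + 1 = κ + a) (ha : 1 ≤ a)
    (hcount : (κ + a) * (r + w) + 1 ≤ w * κ + d * μ) (κ' : ℝ) (hr : ((κ + a : ℕ) : ℝ) / a ≤ κ')
    (c0 B : ℝ) (hc0 : 0 ≤ c0) (hB : 0 ≤ B) : ∃ C : ℝ, 0 < C ∧ ∀ H : ℝ, 3 ≤ H →
    ∀ (K : Type) [Field K] [NumberField K] (φ : K →ₐ[ℚ] ℂ) (z : Fin d → Fin l → K)
      (lam : Fin d → Fin l → ℂ) (β : Fin w → Fin l → ℤ) (N : Matrix (Fin d) (Fin l) ℂ),
      finrank ℚ K ≤ D0 → (∀ j p, z j p ≠ 0) → (∀ j p, Ht H (z j p)) →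
      (∀ j p, Complex.exp (lam j p) = φ (z j p)) → (∀ j p, ‖lam j p‖ ≤ c0 * Real.log H) →
      (∀ i p, |(β i p : ℝ)| ≤ B) → N.rank ≤ r →
      (∀ j p, ‖lam j p - ∑ i, ((γ i j : ℤ) : ℂ) * (β i p : ℂ) - N j p‖ ≤
        Real.exp (-(C * Real.log H ^ κ'))) →
      ∃ (Af : Submodule ℂ (Fin w → ℂ)) (Rm : AddSubgroup (Fin d → ℤ))
        (W0 : Submodule ℂ (Fin w → ℂ)) (G0 : AddSubgroup (Fin l → ℤ)),
        ¬ (Af = ⊥ ∧ Rm = ⊥) ∧
        (∀ c, c ∈ W0 ↔ (∀ b ∈ Af, ∑ i, b i * c i = 0) ∧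
          ∀ m ∈ Rm, ∑ j, (m j : ℂ) * ∑ i, c i * ((γ i j : ℤ) : ℂ) = 0) ∧
        (∀ s, s ∈ G0 ↔ (∀ b ∈ Af, ∑ i, b i * ∑ p, (β i p : ℂ) * (s p : ℂ) = 0) ∧
          ∀ m ∈ Rm, ∏ j, (∏ p, z j p ^ s p) ^ m j = 1) ∧
        (w - finrank ℂ W0) * τ + (l - finrank ℤ G0) * σ ≤
          finrank ℂ Af * κ + finrank ℤ Rm * μ := by
  classical
  obtain ⟨g, hg0, hg⟩ : ∃ g : ℝ, 0 ≤ g ∧ ∀ i j, ‖((γ i j : ℤ) : ℂ)‖ ≤ g := by
    refine ⟨∑ ij : Fin w × Fin d, ‖((γ ij.1 ij.2 : ℤ) : ℂ)‖, by positivity, fun i j => ?_⟩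
    exact Finset.single_le_sum (f := fun ij : Fin w × Fin d => ‖((γ ij.1 ij.2 : ℤ) : ℂ)‖)
      (fun _ _ => norm_nonneg _) (Finset.mem_univ (i, j))
  obtain ⟨c1, hc1⟩ : ∃ c1 : ℝ, c1 = c0 + w * (g * B) + 1 := ⟨_, rfl⟩
  have hc11 : 1 ≤ c1 := by
    have : 0 ≤ (w : ℝ) * (g * B) := by positivity
    linarith
  obtain ⟨c2, hc2⟩ : ∃ c2 : ℝ, c2 = ((d * l : ℕ) : ℝ) + 2 + B := ⟨_, rfl⟩
  have hc21 : 1 ≤ c2 := by
    have : (0 : ℝ) ≤ ((d * l : ℕ) : ℝ) := Nat.cast_nonneg _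
    linarith
  obtain ⟨C1, hC1, n0, hmain⟩ := Pool.Agent.L0h53.NP.obstructionU (l := l) (r := r) γ κ μ σ τ a D0
    ((1 + B + g) ^ 2 * c1) (by positivity) hd hl hκ hτ ha hcount
  obtain ⟨C, hC, hCn⟩ := Pool.Agent.L0h53.NP.choose_nU a (κ + a) ha κ' hr C1 hC1 n0 c2 (by linarith)
  have hκ'1 : 1 ≤ κ' := by
    refine le_trans ?_ hr
    rw [le_div_iff₀ (by exact_mod_cast ha)]
    push_cast
    have : (0 : ℝ) ≤ κ := Nat.cast_nonneg _
    linarith
  refine ⟨C + 5, by linarith, ?_⟩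
  intro H hH K _ _ φ z lam β N hD hz0 hzH hexp hlam hβ hN hclose
  obtain ⟨n, hn0, hn1, hnΛ, hnε⟩ := hCn H hH
  have hlog : 1 ≤ Real.log H := by
    rw [Real.le_log_iff_exp_le (by linarith)]
    have := Real.exp_one_lt_d9
    linarith
  obtain ⟨L, hL⟩ : ∃ L, L = Real.log H := ⟨_, rfl⟩
  rw [← hL] at hlog hnΛ hnε hlam hclose
  have hHL : H = Real.exp L := by rw [hL, Real.exp_log (by linarith)]
  have hLκ : L ≤ L ^ κ' := by
    calc L = L ^ (1 : ℝ) := (Real.rpow_one L).symm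
      _ ≤ L ^ κ' := Real.rpow_le_rpow_of_exponent_le hlog hκ'1
  obtain ⟨δ, hδ⟩ : ∃ δ, δ = Real.exp (-((C + 5) * L ^ κ')) := ⟨_, rfl⟩
  rw [← hδ] at hclose
  have hδ0 : 0 < δ := by rw [hδ]; exact Real.exp_pos _
  -- `2 H δ ≤ ε`
  have h2δ : 2 * H * δ ≤ Real.exp (-(C * L ^ κ')) := by
    have h2 : (2 : ℝ) ≤ Real.exp 1 := by
      have := Real.exp_one_gt_d9
      linarith
    rw [hδ, hHL]
    calc 2 * Real.exp L * Real.exp (-((C + 5) * L ^ κ')) ≤
        Real.exp 1 * Real.exp L * Real.exp (-((C + 5) * L ^ κ')) := by gcongr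
      _ = Real.exp (1 + L + -((C + 5) * L ^ κ')) := by rw [← Real.exp_add, ← Real.exp_add]
      _ ≤ _ := by
          apply Real.exp_le_exp.mpr
          nlinarith
  have hexp1 : Real.exp (-(C * L ^ κ')) ≤ 1 := by
    rw [Real.exp_le_one_iff]
    have : 0 ≤ L ^ κ' := by linarith
    nlinarith
  have hδ1 : δ ≤ 1 := by
    have : δ ≤ 2 * H * δ := by nlinarith
    linarith
  -- the size of `N`
  have hβ' : ∀ i p, ‖(β i p : ℂ)‖ ≤ B := by
    intro i p
    have := hβ i p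
    rwa [show (β i p : ℂ) = ((β i p : ℝ) : ℂ) by norm_cast, Complex.norm_real, Real.norm_eq_abs]
  have hγβ : ∀ j p, ‖∑ i, ((γ i j : ℤ) : ℂ) * (β i p : ℂ)‖ ≤ w * (g * B) := by
    intro j p
    refine (norm_sum_le _ _).trans ?_
    calc ∑ i, ‖((γ i j : ℤ) : ℂ) * (β i p : ℂ)‖ ≤ ∑ _i : Fin w, g * B :=
          Finset.sum_le_sum fun i _ => by
            rw [norm_mul]
            exact mul_le_mul (hg i j) (hβ' i p) (norm_nonneg _) hg0
      _ = _ := by simp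
  have hNle : ∀ j p, ‖N j p‖ ≤ c1 * L := by
    intro j p
    have e : N j p = lam j p - ∑ i, ((γ i j : ℤ) : ℂ) * (β i p : ℂ) -
        (lam j p - ∑ i, ((γ i j : ℤ) : ℂ) * (β i p : ℂ) - N j p) := by ring
    rw [e]
    refine (norm_sub_le _ _).trans ?_
    have e1 := (norm_sub_le (lam j p) (∑ i, ((γ i j : ℤ) : ℂ) * (β i p : ℂ))).trans
      (add_le_add (hlam j p) (hγβ j p))
    have e2 := (hclose j p).trans hδ1
    have e3 : (w : ℝ) * (g * B) ≤ w * (g * B) * L := by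
      have : 0 ≤ (w : ℝ) * (g * B) := by positivity
      nlinarith
    rw [hc1]
    nlinarith
  obtain ⟨x0, y0, hx0, hy0, hxy0⟩ := factor N r hN (c1 * L) (by positivity) hNle
  obtain ⟨S, hS⟩ : ∃ S, S = Real.sqrt (c1 * L) := ⟨_, rfl⟩
  have hS2 : S ^ 2 = c1 * L := by rw [hS]; exact Real.sq_sqrt (by positivity)
  have hS0 : 0 ≤ S := by rw [hS]; exact Real.sqrt_nonneg _
  have hS1 : 1 ≤ S := by
    have : 1 ≤ c1 * L := by nlinarith
    nlinarith
  have hSC : (S : ℂ) ≠ 0 := by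
    have : S ≠ 0 := by linarith
    exact_mod_cast this
  let x : Fin r → Fin d → ℂ := fun ρ j => (S : ℂ) * x0 ρ j
  let y : Fin r → Fin l → ℂ := fun ρ p => y0 ρ p / (S : ℂ)
  obtain ⟨Cx, hCx⟩ : ∃ Cx, Cx = (1 + B + g) * S := ⟨_, rfl⟩
  have hSCx : S ≤ Cx := by rw [hCx]; nlinarith
  have hBCx : B ≤ Cx := by rw [hCx]; nlinarith
  have hgCx : g ≤ Cx := by rw [hCx]; nlinarith
  have hx : ∀ ρ j, ‖x ρ j‖ ≤ Cx := by
    intro ρ j
    refine le_trans ?_ hSCx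
    change ‖(S : ℂ) * x0 ρ j‖ ≤ S
    rw [norm_mul, Complex.norm_real, Real.norm_eq_abs, abs_of_nonneg hS0]
    have := hx0 ρ j
    nlinarith
  have hy : ∀ ρ p, ‖y ρ p‖ ≤ Cx := by
    intro ρ p
    refine le_trans ?_ hSCx
    change ‖y0 ρ p / (S : ℂ)‖ ≤ S
    rw [norm_div, Complex.norm_real, Real.norm_eq_abs, abs_of_nonneg hS0, div_le_iff₀ (by linarith)]
    have := hy0 ρ p
    nlinarith
  have hxy : ∀ j p, ∑ ρ, x ρ j * y ρ p = N j p := by
    intro j p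
    rw [hxy0 j p]
    refine Finset.sum_congr rfl fun ρ _ => ?_
    change (S : ℂ) * x0 ρ j * (y0 ρ p / (S : ℂ)) = _
    field_simp
  -- the exponentials
  obtain ⟨T, hT⟩ : ∃ T : Fin d → Fin l → ℂ,
      ∀ j p, T j p = N j p + ∑ i, ((γ i j : ℤ) : ℂ) * (β i p : ℂ) := ⟨_, fun _ _ => rfl⟩
  have hTle : ∀ j p, ‖φ (z j p) - Complex.exp (T j p)‖ ≤ 2 * H * δ := by
    intro j p
    have e1 : Complex.exp (T j p) = φ (z j p) * Complex.exp (T j p - lam j p) := by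
      rw [← hexp, ← Complex.exp_add]
      congr 1
      ring
    have e2 : ‖T j p - lam j p‖ ≤ δ := by
      rw [hT, norm_sub_rev]
      refine le_trans (le_of_eq ?_) (hclose j p)
      congr 1
      ring
    have e3 : ‖Complex.exp (T j p - lam j p) - 1‖ ≤ 2 * δ := by
      refine (Complex.norm_exp_sub_one_le (e2.trans hδ1)).trans ?_
      linarith
    have e4 : φ (z j p) - Complex.exp (T j p) =
        -(φ (z j p) * (Complex.exp (T j p - lam j p) - 1)) := by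
      rw [e1]; ring
    rw [e4, norm_neg, norm_mul]
    calc ‖φ (z j p)‖ * ‖Complex.exp (T j p - lam j p) - 1‖ ≤ H * (2 * δ) :=
          mul_le_mul ((hzH j p).2 φ) e3 (norm_nonneg _) (by linarith)
      _ = _ := by ring
  have hTR : ∀ j p, ‖Complex.exp (T j p)‖ ≤ H + 1 + B := by
    intro j p
    have e1 : Complex.exp (T j p) = φ (z j p) - (φ (z j p) - Complex.exp (T j p)) := by ring
    rw [e1]
    refine (norm_sub_le _ _).trans ?_
    have e2 := (hTle j p).trans (h2δ.trans hexp1)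
    have e3 := (hzH j p).2 φ
    linarith
  -- denominators
  choose q hq0 hqH hqI using fun j p => (hzH j p).1
  let dd : ℕ := ∏ j, ∏ p, q j p
  have hdd0 : 0 < dd := Finset.prod_pos fun j _ => Finset.prod_pos fun p _ => hq0 j p
  have hqdd : ∀ j p, q j p ∣ dd := fun j p =>
    (Finset.dvd_prod_of_mem (fun p => q j p) (Finset.mem_univ p)).trans
      (Finset.dvd_prod_of_mem (fun j => ∏ p, q j p) (Finset.mem_univ j))
  have hddH : (dd : ℝ) ≤ H ^ (d * l) := by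
    change ((∏ j, ∏ p, q j p : ℕ) : ℝ) ≤ _
    push_cast
    calc ∏ j, ∏ p, (q j p : ℝ) ≤ ∏ _j : Fin d, ∏ _p : Fin l, H :=
          Finset.prod_le_prod (fun j _ => by positivity) fun j _ =>
            Finset.prod_le_prod (fun p _ => by positivity) fun p _ => hqH j p
      _ = H ^ (d * l) := by
          simp only [Finset.prod_const, Finset.card_univ, Fintype.card_fin]
          rw [← pow_mul, mul_comm]
  have hddΛ : (dd : ℝ) ≤ Real.exp (c2 * L) := by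
    refine hddH.trans ?_
    rw [hHL, ← Real.exp_nat_mul]
    apply Real.exp_le_exp.mpr
    rw [hc2]
    have : 0 ≤ (2 + B) * L := by positivity
    linarith
  have hRΛ : H + 1 + B ≤ Real.exp (c2 * L) := by
    have e1 : H + 1 + B ≤ H ^ 2 * (1 + B) := by
      have : H + 1 ≤ H ^ 2 := by nlinarith
      nlinarith
    have e2 : 1 + B ≤ Real.exp (B * L) := by
      have h3 := Real.add_one_le_exp B
      have h4 : Real.exp B ≤ Real.exp (B * L) := by
        apply Real.exp_le_exp.mpr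
        nlinarith
      linarith
    have e3 : H ^ 2 = Real.exp (2 * L) := by
      rw [hHL, ← Real.exp_nat_mul]; norm_num
    calc H + 1 + B ≤ H ^ 2 * (1 + B) := e1
      _ ≤ Real.exp (2 * L) * Real.exp (B * L) := by
          rw [e3]
          exact mul_le_mul_of_nonneg_left e2 (Real.exp_pos _).le
      _ = Real.exp (2 * L + B * L) := by rw [← Real.exp_add]
      _ ≤ _ := by
          apply Real.exp_le_exp.mpr
          rw [hc2]
          have : 0 ≤ ((d * l : ℕ) : ℝ) * L := by positivity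
          linarith
  obtain ⟨ε, hε⟩ : ∃ ε : ℝ, ε = (1 / 4) ^ (n ^ (κ + a)) := ⟨_, rfl⟩
  have hε0 : 0 ≤ ε := by rw [hε]; positivity
  have hβK : ∀ i p, φ ((β i p : ℤ) : K) = (β i p : ℂ) := fun i p => map_intCast φ _
  have hγT : ∀ j p, ∑ ρ, x ρ j * y ρ p + ∑ i, ((γ i j : ℤ) : ℂ) * (β i p : ℂ) = T j p := by
    intro j p
    rw [hxy, hT]
  obtain ⟨Af, Rm, W0, G0, q1, q2, q3, q4⟩ := hmain n hn0 K φ (fun i p => ((β i p : ℤ) : K)) z x y
    (fun i p => (β i p : ℂ)) (c2 * L) (H + 1 + B) ε Cx dd (by linarith)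
    (by
      rw [hCx, mul_pow, hS2]
      have : (1 + B + g) ^ 2 * (c1 * L) = (1 + B + g) ^ 2 * c1 * L := by ring
      rw [this]
      apply mul_le_mul_of_nonneg_left _ (by positivity)
      nlinarith)
    hx hy (fun i p => (hβ' i p).trans hBCx) (fun i j => (hg i j).trans hgCx)
    hnΛ (by nlinarith) (by linarith) hRΛ hdd0 hddΛ hD hε0 (by rw [hε])
    (fun i p => (IntD.of_int (isIntegral_intCast (β i p))).mono (by omega))
    (fun j p => intD_of (hqdd j p) (hqI j p))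
    (fun τ' i p => by
      rw [map_intCast]
      exact (hβ' i p).trans (by linarith))
    (fun τ' j p => ((hzH j p).2 τ').trans (by linarith))
    (fun i p => (hβ' i p).trans (by linarith))
    (fun j p => by rw [hγT]; exact hTR j p)
    (fun i p => by rw [hβK, sub_self, norm_zero]; exact hε0)
    (fun j p => by
      rw [hγT, hε]
      exact (hTle j p).trans (h2δ.trans hnε))
    hz0
  refine ⟨Af, Rm, W0, G0, q1, q2, fun s => ?_, q4⟩
  rw [q3 s]
  refine and_congr ?_ ?_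
  · refine forall₂_congr fun b _ => ?_
    simp only [hβK]
  · refine forall₂_congr fun m _ => ?_
    have e : ∏ j, (∏ p, φ (z j p) ^ s p) ^ m j = φ (∏ j, (∏ p, z j p ^ s p) ^ m j) := by
      simp only [map_prod, map_zpow₀]
    rw [e]
    constructor
    · intro h
      have h' : φ (∏ j, (∏ p, z j p ^ s p) ^ m j) = φ 1 := by rw [h, map_one]
      exact φ.injective h'
    · intro h
      rw [h, map_one]

end Pool.Agent.L0h53.RK
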