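import Mathlib
import Pool.Agent.L0h53.RK.Core
import Pool.Agent.L0h53.RK.Lin
import Pool.Agent.L0h53.NP.PiCases

set_option autoImplicit false

/-! Matrices of linear forms in logarithms: half of the structural rank. -/

namespace Pool.Agent.L0h53.RK

open Finset Module

section height

variable {K : Type} [Field K] [NumberField K]

theorem ht_one {H : ℝ} (hH : 1 ≤ H) : Ht H (1 : K) := by
  refine ⟨⟨1, one_pos, by simpa using hH, by simpa using isIntegral_one⟩, fun τ => ?_⟩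
  rw [map_one, norm_one]; exact hH

theorem ht_mono {H H' : ℝ} (h : H ≤ H') {a : K} (ha : Ht H a) : Ht H' a := by
  obtain ⟨⟨q, h1, h2, h3⟩, h4⟩ := ha
  exact ⟨⟨q, h1, h2.trans h, h3⟩, fun τ => (h4 τ).trans h⟩

theorem ht_mul {H H' : ℝ} (hH : 0 ≤ H) {a b : K} (ha : Ht H a) (hb : Ht H' b) :
    Ht (H * H') (a * b) := by
  obtain ⟨⟨q, h1, h2, h3⟩, h4⟩ := ha
  obtain ⟨⟨q', h1', h2', h3'⟩, h4'⟩ := hb
  refine ⟨⟨q * q', Nat.mul_pos h1 h1', ?_, ?_⟩, fun τ => ?_⟩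
  · push_cast
    exact mul_le_mul h2 h2' (Nat.cast_nonneg _) hH
  · have : ((q * q' : ℕ) : K) * (a * b) = ((q : K) * a) * ((q' : K) * b) := by push_cast; ring
    rw [this]
    exact h3.mul h3'
  · rw [map_mul, norm_mul]
    exact mul_le_mul (h4 τ) (h4' τ) (norm_nonneg _) hH

theorem ht_pow {H : ℝ} (hH : 1 ≤ H) {a : K} (ha : Ht H a) (k : ℕ) : Ht (H ^ k) (a ^ k) := by
  induction k with
  | zero => rw [pow_zero, pow_zero]; exact ht_one le_rfl
  | succ k ih =>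
    rw [pow_succ, pow_succ]
    exact ht_mul (by positivity) ih ha

theorem ht_zpow {H : ℝ} (hH : 1 ≤ H) {a : K} (ha : Ht H a) (ha' : Ht H a⁻¹) (k : ℤ) :
    Ht (H ^ k.natAbs) (a ^ k) := by
  rcases Int.natAbs_eq k with h | h
  · have : a ^ k = a ^ k.natAbs := by
      conv_lhs => rw [h]
      exact zpow_natCast _ _
    rw [this]
    exact ht_pow hH ha _
  · have : a ^ k = a⁻¹ ^ k.natAbs := by
      conv_lhs => rw [h]
      rw [zpow_neg, zpow_natCast, inv_pow]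
    rw [this]
    exact ht_pow hH ha' _

theorem ht_prod {H : ℝ} (hH : 1 ≤ H) {ι : Type} (s : Finset ι) (a : ι → K) (k : ι → ℤ)
    (ha : ∀ i ∈ s, Ht H (a i)) (ha' : ∀ i ∈ s, Ht H (a i)⁻¹) :
    Ht (H ^ (∑ i ∈ s, (k i).natAbs)) (∏ i ∈ s, a i ^ k i) := by
  classical
  induction s using Finset.induction_on with
  | empty => simpa using ht_one le_rfl
  | insert i s hi ih =>
    rw [Finset.sum_insert hi, Finset.prod_insert hi, pow_add]
    refine ht_mul (by positivity) (ht_zpow hH (ha i (mem_insert_self _ _))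
      (ha' i (mem_insert_self _ _)) _) (ih (fun j hj => ha j (mem_insert_of_mem hj))
      fun j hj => ha' j (mem_insert_of_mem hj))

end height

/-- the entries of the matrix -/
noncomputable def zm {K : Type} [Field K] {n d : ℕ} (M : Fin n → Fin d → Fin d → ℤ) (z : Fin n → K)
    (j p : Fin d) : K := ∏ i, z i ^ M i j p

/-- a relation for the matrix is a relation for the numbers -/
theorem rel_zm {K : Type} [Field K] {n d : ℕ} (M : Fin n → Fin d → Fin d → ℤ) (z : Fin n → K)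
    (hz : ∀ i, z i ≠ 0) (m s : Fin d → ℤ) :
    ∏ j, (∏ p, zm M z j p ^ s p) ^ m j = ∏ i, z i ^ (∑ j, ∑ p, m j * s p * M i j p) := by
  unfold zm
  have h1 : ∀ j p, (∏ i, z i ^ M i j p) ^ s p = ∏ i, z i ^ (M i j p * s p) := by
    intro j p
    rw [← Finset.prod_zpow]
    exact Finset.prod_congr rfl fun i _ => (zpow_mul _ _ _).symm
  have h2 : ∀ j, (∏ p, (∏ i, z i ^ M i j p) ^ s p) ^ m j =
      ∏ i, z i ^ (∑ p, m j * s p * M i j p) := by
    intro j
    simp only [h1]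
    rw [Finset.prod_comm, ← Finset.prod_zpow]
    refine Finset.prod_congr rfl fun i _ => ?_
    rw [← Finset.prod_zpow]
    rw [zpow_sum_eq (hz i)]
    refine Finset.prod_congr rfl fun p _ => ?_
    rw [← zpow_mul]
    congr 1
    ring
  simp only [h2]
  rw [Finset.prod_comm]
  refine Finset.prod_congr rfl fun i _ => ?_
  rw [zpow_sum_eq (hz i)]
where
  zpow_sum_eq {K : Type} [Field K] {ι : Type} [Fintype ι] {a : K} (ha : a ≠ 0) {f : ι → ℤ} :
      a ^ (∑ i, f i) = ∏ i, a ^ f i := by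
    classical
    have : ∀ s : Finset ι, a ^ (∑ i ∈ s, f i) = ∏ i ∈ s, a ^ f i := by
      intro s
      induction s using Finset.induction_on with
      | empty => simp
      | insert i s hi ih => rw [Finset.sum_insert hi, Finset.prod_insert hi, zpow_add₀ ha, ih]
    exact this _


/-- the integer matrix at a point -/
theorem exists_point {n d : ℕ} (M : Fin n → Fin d → Fin d → ℤ) (M₀ : Fin d → Fin d → ℤ)
    (h : Matrix.det (Matrix.of fun j p : Fin d => (MvPolynomial.C (M₀ j p) +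
      ∑ i, MvPolynomial.C (M i j p) * MvPolynomial.X i : MvPolynomial (Fin n) ℤ)) ≠ 0) :
    ∃ x : Fin n → ℤ, (Matrix.of (fun j p : Fin d => M₀ j p + ∑ i, M i j p * x i)).det ≠ 0 := by
  by_contra hcon
  push Not at hcon
  apply h
  apply MvPolynomial.funext
  intro x
  rw [map_zero, ← RingHom.coe_coe, RingHom.map_det]
  rw [← hcon x]
  congr 1
  ext j p
  simp [mul_comm]

/-- the bilinear form of a matrix -/
noncomputable def bil {d : ℕ} (A : Fin d → Fin d → ℤ) :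
    (Fin d → ℂ) →ₗ[ℂ] (Fin d → ℂ) →ₗ[ℂ] ℂ :=
  LinearMap.mk₂ ℂ (fun u c => ∑ j, ∑ p, u j * (A j p : ℂ) * c p)
    (fun u u' c => by simp only [Pi.add_apply, add_mul, Finset.sum_add_distrib])
    (fun b u c => by simp only [Pi.smul_apply, smul_eq_mul, mul_assoc, Finset.mul_sum])
    (fun u c c' => by simp only [Pi.add_apply, mul_add, Finset.sum_add_distrib])
    (fun b u c => by
      simp only [Pi.smul_apply, smul_eq_mul, Finset.mul_sum]
      exact Finset.sum_congr rfl fun j _ => Finset.sum_congr rfl fun p _ => by ring)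

theorem bil_apply {d : ℕ} (A : Fin d → Fin d → ℤ) (u c : Fin d → ℂ) :
    bil A u c = ∑ j, ∑ p, u j * (A j p : ℂ) * c p := rfl

theorem bil_span {d : ℕ} {A : Fin d → Fin d → ℤ} {S T : Set (Fin d → ℂ)}
    (h : ∀ u ∈ S, ∀ c ∈ T, bil A u c = 0) :
    ∀ u ∈ Submodule.span ℂ S, ∀ c ∈ Submodule.span ℂ T, bil A u c = 0 := by
  intro u hu c hc
  have h1 : ∀ u ∈ S, Submodule.span ℂ T ≤ LinearMap.ker (bil A u) := by
    intro u hu
    rw [Submodule.span_le]
    intro c hc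
    exact h u hu c hc
  have h2 : Submodule.span ℂ S ≤ LinearMap.ker ((bil A).flip c) := by
    rw [Submodule.span_le]
    intro u hu
    exact h1 u hu hc
  exact h2 hu

/-- a block of zeros of a nonsingular matrix -/
theorem block_le {d : ℕ} (A : Fin d → Fin d → ℤ) (hA : (Matrix.of A).det ≠ 0)
    (U W : Submodule ℂ (Fin d → ℂ))
    (h : ∀ u ∈ U, ∀ c ∈ W, bil A u c = 0) :
    finrank ℂ U + finrank ℂ W ≤ d := by
  let B : Matrix (Fin d) (Fin d) ℂ := (Matrix.of A).map (Int.cast)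
  have hB : B.det ≠ 0 := by
    have : B.det = (((Matrix.of A).det : ℤ) : ℂ) := by
      have := RingHom.map_det (Int.castRingHom ℂ) (Matrix.of A)
      simpa [B] using this.symm
    rw [this]
    exact_mod_cast hA
  have hBu : IsUnit B.det := isUnit_iff_ne_zero.mpr hB
  have hinj : Function.Injective B.mulVecLin := by
    intro v v' hv
    have := congrArg (fun t => B⁻¹.mulVec t) hv
    simpa [Matrix.mulVecLin_apply, Matrix.mulVec_mulVec, Matrix.nonsing_inv_mul B hBu] using this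
  have h1 : finrank ℂ (W.map B.mulVecLin) = finrank ℂ W :=
    (LinearEquiv.finrank_eq (Submodule.equivMapOfInjective B.mulVecLin hinj W)).symm
  rw [← h1]
  apply pair_le
  rintro u hu _ ⟨c, hc, rfl⟩
  rw [← h u hu c hc, bil_apply]
  refine Finset.sum_congr rfl fun j _ => ?_
  simp only [Matrix.mulVecLin_apply, Matrix.mulVec, dotProduct, Finset.mul_sum]
  refine Finset.sum_congr rfl fun p _ => ?_
  simp [B, mul_assoc]

/-- the height of the entries -/
theorem exists_size {n d : ℕ} (M : Fin n → Fin d → Fin d → ℤ) :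
    ∃ m : ℕ, 1 ≤ m ∧ ∀ j p, ∑ i, (M i j p).natAbs ≤ m := by
  refine ⟨1 + ∑ j, ∑ p, ∑ i, (M i j p).natAbs, by omega, fun j p => ?_⟩
  have h1 : ∑ i, (M i j p).natAbs ≤ ∑ p, ∑ i, (M i j p).natAbs :=
    Finset.single_le_sum (f := fun p => ∑ i, (M i j p).natAbs) (fun _ _ => Nat.zero_le _)
      (Finset.mem_univ p)
  have h2 : ∑ p, ∑ i, (M i j p).natAbs ≤ ∑ j, ∑ p, ∑ i, (M i j p).natAbs :=
    Finset.single_le_sum (f := fun j => ∑ p, ∑ i, (M i j p).natAbs) (fun _ _ => Nat.zero_le _)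
      (Finset.mem_univ j)
  omega

section entries

variable {K : Type} [Field K] [NumberField K] {n d : ℕ} {M : Fin n → Fin d → Fin d → ℤ}
  {z : Fin n → K} {H : ℝ}

theorem zm_ne (hz : ∀ i, z i ≠ 0) (j p : Fin d) : zm M z j p ≠ 0 :=
  Finset.prod_ne_zero_iff.mpr fun i _ => zpow_ne_zero _ (hz i)

theorem zm_ht (hH : 1 ≤ H) {m : ℕ} (hm : ∀ j p, ∑ i, (M i j p).natAbs ≤ m)
    (hz : ∀ i, Ht H (z i)) (hz' : ∀ i, Ht H (z i)⁻¹) (j p : Fin d) :
    Ht (H ^ m) (zm M z j p) :=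
  ht_mono (pow_le_pow_right₀ hH (hm j p)) (ht_prod hH Finset.univ z (fun i => M i j p)
    (fun i _ => hz i) fun i _ => hz' i)

theorem zm_exp (φ : K →ₐ[ℚ] ℂ) {lam : Fin n → ℂ} (h : ∀ i, Complex.exp (lam i) = φ (z i))
    (j p : Fin d) : Complex.exp (∑ i, (M i j p : ℂ) * lam i) = φ (zm M z j p) := by
  unfold zm
  rw [Complex.exp_sum, map_prod]
  refine Finset.prod_congr rfl fun i _ => ?_
  rw [Complex.exp_int_mul, h, map_zpow₀]

theorem zm_size {m : ℕ} (hm : ∀ j p, ∑ i, (M i j p).natAbs ≤ m) {c0 : ℝ} (hc0 : 0 ≤ c0)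
    (hH : 1 ≤ H) {lam : Fin n → ℂ} (h : ∀ i, ‖lam i‖ ≤ c0 * Real.log H) (j p : Fin d) :
    ‖∑ i, (M i j p : ℂ) * lam i‖ ≤ c0 * Real.log (H ^ m) := by
  have hlog : 0 ≤ Real.log H := Real.log_nonneg hH
  calc ‖∑ i, (M i j p : ℂ) * lam i‖ ≤ ∑ i, ‖(M i j p : ℂ) * lam i‖ := norm_sum_le _ _
    _ ≤ ∑ i, ((M i j p).natAbs : ℝ) * (c0 * Real.log H) := by
        refine Finset.sum_le_sum fun i _ => ?_
        rw [norm_mul]
        have e : ‖(M i j p : ℂ)‖ = ((M i j p).natAbs : ℝ) := by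
          rw [Complex.norm_intCast, Nat.cast_natAbs, Int.cast_abs]
        rw [e]
        exact mul_le_mul_of_nonneg_left (h i) (Nat.cast_nonneg _)
    _ = ((∑ i, (M i j p).natAbs : ℕ) : ℝ) * (c0 * Real.log H) := by
        rw [← Finset.sum_mul]; push_cast; ring
    _ ≤ (m : ℝ) * (c0 * Real.log H) := by
        apply mul_le_mul_of_nonneg_right _ (by positivity)
        exact_mod_cast hm j p
    _ = _ := by rw [Real.log_pow]; ring

end entries

/-- the exponent of the relation given by two vectors -/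
def ex {n d : ℕ} (M : Fin n → Fin d → Fin d → ℤ) (m s : Fin d → ℤ) (i : Fin n) : ℤ :=
  ∑ j, ∑ p, m j * s p * M i j p

theorem bil_point {n d : ℕ} (M : Fin n → Fin d → Fin d → ℤ) (M₀ : Fin d → Fin d → ℤ)
    (x : Fin n → ℤ) (u c : Fin d → ℂ) :
    bil (fun j p => M₀ j p + ∑ i, M i j p * x i) u c =
      bil M₀ u c + ∑ i, (x i : ℂ) * bil (M i) u c := by
  simp only [bil_apply]
  have h1 : ∑ i, (x i : ℂ) * ∑ j, ∑ p, u j * (M i j p : ℂ) * c p =
      ∑ j, ∑ p, ∑ i, (x i : ℂ) * (u j * (M i j p : ℂ) * c p) := by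
    simp only [Finset.mul_sum]
    rw [Finset.sum_comm]
    refine Finset.sum_congr rfl fun j _ => ?_
    rw [Finset.sum_comm]
  rw [h1, ← Finset.sum_add_distrib]
  refine Finset.sum_congr rfl fun j _ => ?_
  rw [← Finset.sum_add_distrib]
  refine Finset.sum_congr rfl fun p _ => ?_
  push_cast
  rw [mul_add, add_mul, Finset.mul_sum, Finset.sum_mul]
  congr 1
  exact Finset.sum_congr rfl fun i _ => by ring

/-- integral vectors as complex vectors -/
def vc {d : ℕ} (m : Fin d → ℤ) : Fin d → ℂ := fun i => ((m i : ℤ) : ℂ)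

theorem bil_vc {n d : ℕ} (M : Fin n → Fin d → Fin d → ℤ) (m s : Fin d → ℤ) (i : Fin n) :
    bil (M i) (vc m) (vc s) = ((ex M m s i : ℤ) : ℂ) := by
  rw [bil_apply]
  unfold ex vc
  push_cast
  exact Finset.sum_congr rfl fun j _ => Finset.sum_congr rfl fun p _ => by ring

/-- scaling the constant -/
theorem scale {m : ℕ} (hm : 1 ≤ m) {κ : ℝ} {C : ℝ} {H : ℝ} (hH : 3 ≤ H) :
    C * Real.log (H ^ m) ^ κ = (C * (m : ℝ) ^ κ) * Real.log H ^ κ := by
  have hlog : 0 ≤ Real.log H := Real.log_nonneg (by linarith)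
  rw [Real.log_pow, Real.mul_rpow (Nat.cast_nonneg _) hlog]
  ring

/-- **Half of the structural rank: linear forms in logarithms.** -/
theorem half_pure (n d r D0 : ℕ) (h : 2 * r < d) (M : Fin n → Fin d → Fin d → ℤ)
    (hM : Matrix.det (Matrix.of fun j p : Fin d => (
      ∑ i, MvPolynomial.C (M i j p) * MvPolynomial.X i : MvPolynomial (Fin n) ℤ)) ≠ 0) (κ' : ℝ)
    (hκ : (d : ℝ) / (d - 2 * r) < κ') (c0 : ℝ) (hc0 : 0 ≤ c0) :
    ∃ C : ℝ, 0 < C ∧ ∀ H : ℝ, 3 ≤ H →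
    ∀ (K : Type) [Field K] [NumberField K] (φ : K →ₐ[ℚ] ℂ) (z : Fin n → K)
      (lam : Fin n → ℂ) (N : Matrix (Fin d) (Fin d) ℂ),
      finrank ℚ K ≤ D0 → (∀ i, z i ≠ 0) → (∀ i, Ht H (z i)) → (∀ i, Ht H (z i)⁻¹) →
      (∀ i, Complex.exp (lam i) = φ (z i)) → (∀ i, ‖lam i‖ ≤ c0 * Real.log H) →
      N.rank ≤ r →
      (∀ j p, ‖∑ i, (M i j p : ℂ) * lam i - N j p‖ ≤ Real.exp (-(C * Real.log H ^ κ'))) →
      ∃ t : Fin n → ℤ, t ≠ 0 ∧ ∏ i, z i ^ t i = 1 := by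
  obtain ⟨m0, hm1, hm0⟩ := exists_size M
  obtain ⟨x, hx⟩ := exists_point M 0 (by simpa using hM)
  have hd0 : 0 < d := by omega
  have hdR : (0 : ℝ) < d := by exact_mod_cast hd0
  have hdr : (0 : ℝ) < d - 2 * r := by
    have : ((2 * r : ℕ) : ℝ) < d := by exact_mod_cast h
    push_cast at this
    linarith
  have h' : r * (d + d) < d * d := by nlinarith
  obtain ⟨a, σ, μ, ha, hcount, hμ, hr⟩ := params_pure d d r h' κ' (by
    refine lt_of_le_of_lt (le_of_eq ?_) hκ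
    rw [div_eq_div_iff (by nlinarith) hdr.ne']
    ring)
  obtain ⟨C, hC, hmain⟩ := core_gen 0 d d r D0 (fun i _ => i.elim0) (μ + σ) μ σ (μ + σ + a - 1) a
    (by omega) (by omega) rfl (by omega) ha (by
      have : σ + μ + a = μ + σ + a := by ring
      rw [← this]
      simpa using hcount) κ' (by
      have : σ + μ + a = μ + σ + a := by ring
      rw [← this]; exact hr) c0 0 hc0 le_rfl
  refine ⟨C * (m0 : ℝ) ^ κ', by positivity, ?_⟩
  intro H hH K _ _ φ z lam N hD hz0 hzH hzH' hexp hlam hN hclose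
  have hH1 : 1 ≤ H := by linarith
  have hHm : 3 ≤ H ^ m0 := by
    calc (3 : ℝ) ≤ H := hH
      _ = H ^ 1 := (pow_one H).symm
      _ ≤ H ^ m0 := pow_le_pow_right₀ hH1 hm1
  obtain ⟨Af, Rm, W0, G0, q1, -, q3, q4⟩ := hmain (H ^ m0) hHm K φ (zm M z)
    (fun j p => ∑ i, (M i j p : ℂ) * lam i) (fun i _ => i.elim0) N hD (zm_ne hz0)
    (zm_ht hH1 hm0 hzH hzH') (zm_exp φ hexp) (zm_size hm0 hc0 hH1 hlam) (fun i _ => i.elim0) hN
    (by
      rw [scale hm1 hH]
      simpa using hclose)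
  have hAf : Af = ⊥ := Subsingleton.elim _ _
  have hAf0 : finrank ℂ Af = 0 := by rw [hAf, finrank_bot]
  have hRm : Rm ≠ ⊥ := fun h => q1 ⟨hAf, h⟩
  by_contra hcon
  push Not at hcon
  -- the two spaces
  let U : Submodule ℂ (Fin d → ℂ) := Submodule.span ℂ (vc '' (Rm : Set (Fin d → ℤ)))
  let V : Submodule ℂ (Fin d → ℂ) := Submodule.span ℂ (vc '' (G0 : Set (Fin d → ℤ)))
  have hzero : ∀ m ∈ Rm, ∀ s ∈ G0, ∀ i, ex M m s i = 0 := by
    intro m hm s hs
    by_contra hne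
    push Not at hne
    obtain ⟨i, hi⟩ := hne
    refine hcon (ex M m s) (fun h0 => hi (congrFun h0 i)) ?_
    rw [← ((q3 s).mp hs).2 m hm]
    exact (rel_zm M z hz0 m s).symm
  have hUV : finrank ℂ U + finrank ℂ V ≤ d := by
    apply block_le _ hx
    intro u hu c hc
    have h1 : ∀ i, bil (M i) u c = 0 := by
      intro i
      refine bil_span (S := vc '' (Rm : Set (Fin d → ℤ))) (T := vc '' (G0 : Set (Fin d → ℤ)))
        ?_ u hu c hc
      rintro _ ⟨m, hm, rfl⟩ _ ⟨s, hs, rfl⟩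
      rw [bil_vc, hzero m hm s hs i, Int.cast_zero]
    rw [bil_point]
    simp only [h1, mul_zero, Finset.sum_const_zero, add_zero]
    rw [bil_apply]
    simp
  have hRU : finrank ℤ Rm ≤ finrank ℂ U := rank_cast Rm U fun m hm =>
    Submodule.subset_span ⟨m, hm, rfl⟩
  have hGV : finrank ℤ G0 ≤ finrank ℂ V := rank_cast G0 V fun m hm =>
    Submodule.subset_span ⟨m, hm, rfl⟩
  have hR1 : 1 ≤ finrank ℤ Rm := by
    by_contra hc
    exact hRm (Pool.Agent.L0h39.QA.eq_bot_of_rank Rm (by omega))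
  rw [hAf0, zero_mul, Nat.zero_sub, zero_mul] at q4
  obtain ⟨g, hg⟩ : ∃ g, g = finrank ℤ G0 := ⟨_, rfl⟩
  obtain ⟨ρ, hρ⟩ : ∃ ρ, ρ = finrank ℤ Rm := ⟨_, rfl⟩
  rw [← hg, ← hρ] at q4
  rw [← hρ] at hR1 hRU
  rw [← hg] at hGV
  obtain ⟨f, hf⟩ : ∃ f, d - g = f := ⟨_, rfl⟩
  rw [hf] at q4
  have h1 : ρ ≤ f := by omega
  have h2 : f * σ ≤ ρ * μ := by simpa using q4
  have h3 : ρ * μ ≤ f * μ := Nat.mul_le_mul_right _ h1
  have h4 : f * σ ≤ f * μ := h2.trans h3
  have h5 : σ ≤ μ := Nat.le_of_mul_le_mul_left h4 (by omega)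
  have h6 : d * σ ≤ d * μ := Nat.mul_le_mul_left _ h5
  omega

/-- **Half of the structural rank: sums of integers and linear forms in logarithms.** -/
theorem half_strong (n d r D0 : ℕ) (h : 2 * r < d) (M : Fin n → Fin d → Fin d → ℤ)
    (M₀ : Fin d → Fin d → ℤ)
    (hM : Matrix.det (Matrix.of fun j p : Fin d => (MvPolynomial.C (M₀ j p) +
      ∑ i, MvPolynomial.C (M i j p) * MvPolynomial.X i : MvPolynomial (Fin n) ℤ)) ≠ 0) (κ' : ℝ)
    (hκ : (2 * d : ℝ) / (d - 2 * r) < κ') (c0 : ℝ) (hc0 : 0 ≤ c0) :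
    ∃ C : ℝ, 0 < C ∧ ∀ H : ℝ, 3 ≤ H →
    ∀ (K : Type) [Field K] [NumberField K] (φ : K →ₐ[ℚ] ℂ) (z : Fin n → K)
      (lam : Fin n → ℂ) (N : Matrix (Fin d) (Fin d) ℂ),
      finrank ℚ K ≤ D0 → (∀ i, z i ≠ 0) → (∀ i, Ht H (z i)) → (∀ i, Ht H (z i)⁻¹) →
      (∀ i, Complex.exp (lam i) = φ (z i)) → (∀ i, ‖lam i‖ ≤ c0 * Real.log H) →
      N.rank ≤ r →
      (∀ j p, ‖M₀ j p + ∑ i, (M i j p : ℂ) * lam i - N j p‖ ≤
        Real.exp (-(C * Real.log H ^ κ'))) →
      ∃ t : Fin n → ℤ, t ≠ 0 ∧ ∏ i, z i ^ t i = 1 := by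
  classical
  obtain ⟨m0, hm1, hm0⟩ := exists_size M
  obtain ⟨x, hx⟩ := exists_point M M₀ hM
  obtain ⟨B, hB0, hB⟩ : ∃ B : ℝ, 0 ≤ B ∧ ∀ j p, |(M₀ j p : ℝ)| ≤ B := by
    refine ⟨∑ ij : Fin d × Fin d, |(M₀ ij.1 ij.2 : ℝ)|, by positivity, fun j p => ?_⟩
    exact Finset.single_le_sum (f := fun ij : Fin d × Fin d => |(M₀ ij.1 ij.2 : ℝ)|)
      (fun _ _ => abs_nonneg _) (Finset.mem_univ (j, p))
  have hd0 : 0 < d := by omega
  have hdR : (0 : ℝ) < d := by exact_mod_cast hd0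
  have hdr : (0 : ℝ) < d - 2 * r := by
    have : ((2 * r : ℕ) : ℝ) < d := by exact_mod_cast h
    push_cast at this
    linarith
  have h' : r * (d + d) < d * d := by nlinarith
  obtain ⟨a, σ, μ, ha, hσ, hcount, hμ, hr⟩ := params_strong d d r h' κ' (by
    refine lt_of_le_of_lt (le_of_eq ?_) hκ
    rw [div_eq_div_iff (by nlinarith) hdr.ne']
    ring)
  let γ : Fin d → Fin d → ℤ := fun i j => if i = j then -1 else 0
  have hγ : ∀ (c : Fin d → ℂ) j, ∑ i, c i * ((γ i j : ℤ) : ℂ) = - c j := by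
    intro c j
    rw [Finset.sum_eq_single j]
    · simp [γ]
    · intro i _ hij; simp [γ, hij]
    · intro h; exact absurd (Finset.mem_univ _) h
  have hγ' : ∀ (c : Fin d → ℂ) j, ∑ i, ((γ i j : ℤ) : ℂ) * c i = - c j := by
    intro c j
    rw [← hγ c j]
    exact Finset.sum_congr rfl fun i _ => mul_comm _ _
  obtain ⟨C, hC, hmain⟩ := core_gen d d d r D0 γ (μ + σ) μ σ (μ + σ + a - 1) a
    (by omega) (by omega) rfl (by omega) (by omega) (by
      have : σ + μ + a = μ + σ + a := by ring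
      rw [← this, show μ + σ = σ + μ by ring]
      exact hcount) κ' (by
      have : σ + μ + a = μ + σ + a := by ring
      rw [← this]; exact hr) c0 B hc0 hB0
  refine ⟨C * (m0 : ℝ) ^ κ', by positivity, ?_⟩
  intro H hH K _ _ φ z lam N hD hz0 hzH hzH' hexp hlam hN hclose
  have hH1 : 1 ≤ H := by linarith
  have hHm : 3 ≤ H ^ m0 := by
    calc (3 : ℝ) ≤ H := hH
      _ = H ^ 1 := (pow_one H).symm
      _ ≤ H ^ m0 := pow_le_pow_right₀ hH1 hm1
  obtain ⟨Af, Rm, W0, G0, q1, q2, q3, q4⟩ := hmain (H ^ m0) hHm K φ (zm M z)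
    (fun j p => ∑ i, (M i j p : ℂ) * lam i) M₀ N hD (zm_ne hz0)
    (zm_ht hH1 hm0 hzH hzH') (zm_exp φ hexp) (zm_size hm0 hc0 hH1 hlam) hB hN
    (fun j p => by
      rw [hγ' (fun i => (M₀ i p : ℂ)) j, scale hm1 hH]
      refine le_trans (le_of_eq ?_) (hclose j p)
      congr 1
      ring)
  by_contra hcon
  push Not at hcon
  -- the spaces
  let R : Submodule ℂ (Fin d → ℂ) := Submodule.span ℂ (vc '' (Rm : Set (Fin d → ℤ)))
  let V : Submodule ℂ (Fin d → ℂ) := Submodule.span ℂ (vc '' (G0 : Set (Fin d → ℤ)))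
  have hzero : ∀ m ∈ Rm, ∀ s ∈ G0, ∀ i, ex M m s i = 0 := by
    intro m hm s hs
    by_contra hne
    push Not at hne
    obtain ⟨i, hi⟩ := hne
    refine hcon (ex M m s) (fun h0 => hi (congrFun h0 i)) ?_
    rw [← ((q3 s).mp hs).2 m hm]
    exact (rel_zm M z hz0 m s).symm
  have hIV : finrank ℂ (Af ⊓ R : Submodule ℂ (Fin d → ℂ)) + finrank ℂ V ≤ d := by
    apply block_le _ hx
    intro u hu c hc
    obtain ⟨hu1, hu2⟩ := Submodule.mem_inf.mp hu
    have h1 : ∀ i, bil (M i) u c = 0 := by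
      intro i
      refine bil_span (S := vc '' (Rm : Set (Fin d → ℤ))) (T := vc '' (G0 : Set (Fin d → ℤ)))
        ?_ u hu2 c hc
      rintro _ ⟨m, hm, rfl⟩ _ ⟨s, hs, rfl⟩
      rw [bil_vc, hzero m hm s hs i, Int.cast_zero]
    have h2 : bil M₀ u c = 0 := by
      refine bil_span (S := (Af : Set (Fin d → ℂ))) (T := vc '' (G0 : Set (Fin d → ℤ)))
        ?_ u (Submodule.subset_span hu1) c hc
      rintro b hb _ ⟨s, hs, rfl⟩
      rw [← ((q3 s).mp hs).1 b hb, bil_apply]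
      refine Finset.sum_congr rfl fun j _ => ?_
      rw [Finset.mul_sum]
      exact Finset.sum_congr rfl fun p _ => by unfold vc; ring
    rw [bil_point, h2]
    simp only [h1, mul_zero, Finset.sum_const_zero, add_zero]
  have hRR : finrank ℤ Rm ≤ finrank ℂ R := rank_cast Rm R fun m hm =>
    Submodule.subset_span ⟨m, hm, rfl⟩
  have hGV : finrank ℤ G0 ≤ finrank ℂ V := rank_cast G0 V fun m hm =>
    Submodule.subset_span ⟨m, hm, rfl⟩
  have hW : ∀ u ∈ Af ⊔ R, ∀ c ∈ W0, ∑ i, u i * c i = 0 := by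
    intro u hu c hc
    obtain ⟨h1, h2⟩ := (q2 c).mp hc
    let f : (Fin d → ℂ) →ₗ[ℂ] ℂ :=
      { toFun := fun u => ∑ i, u i * c i
        map_add' := fun x y => by simp [add_mul, Finset.sum_add_distrib]
        map_smul' := fun b x => by simp [Finset.mul_sum, mul_assoc] }
    have hU : Af ⊔ R ≤ LinearMap.ker f := by
      apply sup_le
      · intro b hb
        exact h1 b hb
      · rw [Submodule.span_le]
        rintro _ ⟨m, hm, rfl⟩
        have h3 := h2 m hm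
        simp only [hγ] at h3
        change ∑ i, ((m i : ℤ) : ℂ) * c i = 0
        have h4 : ∑ j, ((m j : ℤ) : ℂ) * -c j = -∑ j, ((m j : ℤ) : ℂ) * c j := by
          rw [← Finset.sum_neg_distrib]
          exact Finset.sum_congr rfl fun i _ => by ring
        rw [h4] at h3
        exact neg_eq_zero.mp h3
    exact hU hu
  have hUW := pair_le _ W0 hW
  have hsum := Submodule.finrank_sup_add_finrank_inf_eq Af R
  have hIU : finrank ℂ (Af ⊓ R : Submodule ℂ (Fin d → ℂ)) ≤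
      finrank ℂ (Af ⊔ R : Submodule ℂ (Fin d → ℂ)) :=
    Submodule.finrank_mono (inf_le_left.trans le_sup_left)
  have hIR : finrank ℂ (Af ⊓ R : Submodule ℂ (Fin d → ℂ)) ≤ finrank ℂ R :=
    Submodule.finrank_mono inf_le_right
  obtain ⟨e, he⟩ : ∃ e, e = finrank ℂ (Af ⊔ R : Submodule ℂ (Fin d → ℂ)) := ⟨_, rfl⟩
  obtain ⟨i, hi⟩ : ∃ i, i = finrank ℂ (Af ⊓ R : Submodule ℂ (Fin d → ℂ)) := ⟨_, rfl⟩
  obtain ⟨A, hA⟩ : ∃ A, A = finrank ℂ Af := ⟨_, rfl⟩
  obtain ⟨ρ, hρ⟩ : ∃ ρ, ρ = finrank ℤ Rm := ⟨_, rfl⟩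
  obtain ⟨ρ', hρ'⟩ : ∃ ρ', ρ' = finrank ℂ R := ⟨_, rfl⟩
  obtain ⟨g, hg⟩ : ∃ g, g = finrank ℤ G0 := ⟨_, rfl⟩
  obtain ⟨v, hv⟩ : ∃ v, v = finrank ℂ V := ⟨_, rfl⟩
  obtain ⟨W, hWd⟩ : ∃ W, W = finrank ℂ W0 := ⟨_, rfl⟩
  rw [← hi, ← hv] at hIV
  rw [← hρ, ← hρ'] at hRR
  rw [← hg, ← hv] at hGV
  rw [← he, ← hWd] at hUW
  rw [← he, ← hi, ← hA, ← hρ'] at hsum
  rw [← hi, ← he] at hIU
  rw [← hi, ← hρ'] at hIR
  rw [← hWd, ← hg, ← hA, ← hρ] at q4
  have p1 : e * (μ + σ + a - 1) ≤ (d - W) * (μ + σ + a - 1) := Nat.mul_le_mul_right _ (by omega)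
  have p2 : ρ * μ ≤ ρ' * μ := Nat.mul_le_mul_right _ hRR
  have p3 : e * (μ + σ + a - 1) = e * (μ + σ) + e * (a - 1) := by
    rw [← Nat.mul_add]
    congr 1
    omega
  have p4 : i * σ ≤ (d - g) * σ := Nat.mul_le_mul_right _ (by omega)
  have p5 : i * σ ≤ ρ' * σ := Nat.mul_le_mul_right _ hIR
  have p6 : i * (a - 1) ≤ e * (a - 1) := Nat.mul_le_mul_right _ hIU
  have p7 : (A + ρ') * (μ + σ) = (e + i) * (μ + σ) := by rw [hsum]
  have p8 : (A + ρ') * (μ + σ) = A * (μ + σ) + ρ' * μ + ρ' * σ := by ring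
  have p9 : (e + i) * (μ + σ) = e * (μ + σ) + i * μ + i * σ := by ring
  have key : e * (a - 1) + (d - g) * σ + ρ' * σ ≤ i * μ + i * σ := by omega
  rcases Nat.eq_zero_or_pos i with hi0 | hi0
  · rw [hi0, zero_mul, zero_mul, add_zero] at key
    have k1 : e * (a - 1) = 0 := by omega
    have k2 : e = 0 := by
      rcases Nat.mul_eq_zero.mp k1 with h1 | h1
      · exact h1
      · omega
    have k3 : ρ' * σ = 0 := by omega
    have k4 : ρ' = 0 := by
      rcases Nat.mul_eq_zero.mp k3 with h1 | h1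
      · exact h1
      · omega
    refine q1 ⟨?_, Pool.Agent.L0h39.QA.eq_bot_of_rank Rm (by omega)⟩
    apply Submodule.finrank_eq_zero.mp
    omega
  · have k1 : i * ((a - 1) + σ) ≤ i * μ := by
      have : i * ((a - 1) + σ) = i * (a - 1) + i * σ := by ring
      omega
    have k2 : (a - 1) + σ ≤ μ := Nat.le_of_mul_le_mul_left k1 hi0
    have k3 : d * (σ + a) ≤ d * (μ + 1) := Nat.mul_le_mul_left _ (by omega)
    have k4 : d * (σ + a) = d * σ + d * a := by ring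
    have k5 : d * (μ + 1) = d * μ + d := by ring
    omega

end Pool.Agent.L0h53.RK
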